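import Pool.Agent.H81.G9.EUC

/-!
# Theorem (H): the loss of energy over the whole range of scales
-/

set_option autoImplicit false

open Finset Pool.Agent.H93 Pool.Agent.H6.N4D Pool.Agent.H93.GS Pool.Agent.H72.EN
open Pool.Agent.H81.GS Pool.Agent.H6.G9

namespace Pool.Agent.H81.G9

/-- the bound for the tests of a chain -/
noncomputable def e1 (C₀ : ℝ) (B : ℕ) : ℝ := 1 / 50000000 / (48000 * B * C₀)

/-- small loss from small sums over sparse sequences of levels -/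
lemma nearU {th C₀ Af CL CM CG : ℝ} {p₀ J m₁ : ℕ} (hth : 0 < th) (hC₀ : 0 < C₀) (hCL : 0 < CL)
    (hCM : 0 < CM) (hCG : 0 < CG) (hlev : LevU th C₀ Af CL p₀ J m₁) (hmn : MonC th CM)
    (hgm : GmU th CG p₀ 1000) (B : ℕ) (hB : 2 ≤ B) (mU : ℕ)
    (hU : ∀ (lam : ℕ → ℝ) (m n : ℕ), (∀ n, |lam n| ≤ 1) → mU ≤ m → 0 ≤ UB lam J Af m n) :
    ∃ (k₁ X₁ : ℕ), 3 ≤ X₁ ∧
      ∀ (X k₀ k : ℕ) (lam : ℕ → ℝ), X₁ ≤ X → Lio lam → k₁ ≤ k₀ → k₀ ≤ k →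
        (k : ℝ) ≤ 2 * Real.log X ^ (24 / 25 : ℝ) →
        (∀ (K : ℕ) (c : ℕ → ℕ), Chn B k₀ (2 * k) K c →
          ∑ i ∈ range K, EB.lg X (fun n => UB lam J Af (c i) n) ≤ e1 C₀ B * Real.log X) →
        te th lam X k₀ - 1 / 4 ≤ te th lam X k := by
  have hBr : (2 : ℝ) ≤ B := by exact_mod_cast hB
  obtain ⟨A, hAd⟩ : ∃ A : ℕ, A = 1000 := ⟨_, rfl⟩
  have hAr : (A : ℝ) = 1000 := by rw [hAd]; norm_num
  rw [← hAd] at hgm
  obtain ⟨η, hηd⟩ : ∃ η : ℝ, η = 1 / 50000000 := ⟨_, rfl⟩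
  have hη0 : 0 < η := by rw [hηd]; norm_num
  have hη1 : η ≤ 1 := by rw [hηd]; norm_num
  obtain ⟨D, hDd⟩ : ∃ D : ℝ, D = CL / η := ⟨_, rfl⟩
  have hD : 0 < D := by rw [hDd]; positivity
  obtain ⟨y, hy1, hy2, hy3⟩ : ∃ y : ℕ, 1 ≤ y ∧ 60000 * D * CG ≤ y ∧
      240000000 * D ≤ y :=
    ⟨⌈60000 * D * CG⌉₊ + ⌈240000000 * D⌉₊ + 1, by omega, by
      have := Nat.le_ceil (60000 * D * CG)
      push_cast
      have h2 : (0 : ℝ) ≤ (⌈240000000 * D⌉₊ : ℝ) := Nat.cast_nonneg _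
      linarith, by
      have := Nat.le_ceil (240000000 * D)
      push_cast
      have h2 : (0 : ℝ) ≤ (⌈60000 * D * CG⌉₊ : ℝ) := Nat.cast_nonneg _
      linarith⟩
  obtain ⟨G, hGd⟩ : ∃ G : ℝ, G = 600 * D * (6 * CG + 6 * (A + 1)) +
    (5400 + 1) * (2 * A * CM) := ⟨_, rfl⟩
  have hA0 : (0 : ℝ) < A := by rw [hAr]; norm_num
  have hG : 0 < G := by rw [hGd]; positivity
  obtain ⟨X₀, hX₀, hlim⟩ := pf_LIM' (1 / (100 * G)) (by positivity)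
  obtain ⟨V, v1, v2, v3, v4, v5, v6⟩ : ∃ V : ℕ, 2000 * y ≤ V ∧ 3500 ≤ V ∧ 100 * A ≤ V ∧
      m₁ ≤ V ∧ 1000 * (p₀ + 1) ≤ V ∧ mU ≤ V :=
    ⟨2000 * y + 3500 + 100 * A + m₁ + 1000 * (p₀ + 1) + mU, by omega, by omega, by omega,
      by omega, by omega, by omega⟩
  refine ⟨V, X₀, hX₀, ?_⟩
  intro X k₀ k lam hX hlam hk₀ hk hkX hE
  have hX3 : 3 ≤ X := hX₀.trans hX
  have hY1 := log_ge hX3
  have hcore := coreU tel pf_HAR' Pool.Agent.H35.ENL.pf_GSM hth hC₀ hCL hCM hlev hmn lam X A B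
    k₀ k hgm η (e1 C₀ B) hX3 hlam (by omega) hB hη0 hη1 (v2.trans hk₀) (v3.trans hk₀)
    (v4.trans hk₀) (v5.trans hk₀) hk (fun m n hm => hU lam m n (Lio_abs hlam) (by omega)) hE
  rw [← hDd] at hcore
  have hΦ := hlim X k hX hkX
  obtain ⟨Y, hYd⟩ : ∃ Y : ℝ, Y = Real.log X := ⟨_, rfl⟩
  rw [← hYd] at hΦ hcore hY1
  have hY : 0 < Y := by linarith
  have hk1 : 1 ≤ k := by omega
  obtain ⟨Φ, hΦd⟩ : ∃ Φ : ℝ, Φ = ((k : ℝ) + 1) * (1 + Real.log (k + 1)) := ⟨_, rfl⟩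
  rw [← hΦd] at hΦ
  have hk0r : (0 : ℝ) ≤ k := Nat.cast_nonneg _
  have hlog0 : 0 ≤ Real.log ((k : ℝ) + 1) := Real.log_nonneg (by linarith)
  have hΦk : (k : ℝ) + 1 ≤ Φ := by
    rw [hΦd]
    nlinarith
  have hΦ0 : 0 < Φ := by linarith
  -- the single terms
  have t1 : 48 / (A : ℝ) ≤ 1 / 20 := by
    rw [hAr]
    norm_num
  have t2 : 1200 * η * A ≤ 1 / 40 := by
    rw [hAr, hηd]
    norm_num
  have t3 : 1200 * B * (C₀ / η * e1 C₀ B) = 1 / 40 := by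
    unfold e1
    rw [hηd]
    field_simp
    norm_num
  have t4 : 600 * (D * (CG / (k₀ : ℝ))) ≤ 1 / 100 := by
    have hk₀0 : (0 : ℝ) < k₀ := by
      have : 0 < k₀ := by omega
      exact_mod_cast this
    have h1 : (y : ℝ) ≤ k₀ := by
      have : y ≤ k₀ := by omega
      exact_mod_cast this
    have h2 : 600 * (D * (CG / (k₀ : ℝ))) = 600 * D * CG / k₀ := by ring
    rw [h2, div_le_iff₀ hk₀0]
    linarith
  have t5 : 600 * (D * (4000 * (1 / 2) ^ (k₀ / 2000))) ≤ 1 / 100 := by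
    have hy0 : (0 : ℝ) < y := by exact_mod_cast hy1
    have h1 : ((1 : ℝ) / 2) ^ (k₀ / 2000) ≤ 1 / y := by
      apply half_pow_le hy0
      have : y ≤ k₀ / 2000 := by omega
      exact_mod_cast this
    have h2 : 600 * (D * (4000 * (1 / 2) ^ (k₀ / 2000))) ≤ 600 * (D * (4000 * (1 / y))) := by
      gcongr
    refine h2.trans ?_
    have h3 : 600 * (D * (4000 * (1 / (y : ℝ)))) = 2400000 * D / y := by ring
    rw [h3, div_le_iff₀ hy0]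
    linarith
  have hGΦ : G * (Φ / Y) ≤ 1 / 100 := by
    have h1 : Φ / Y ≤ 1 / (100 * G) := by
      rw [div_le_iff₀ hY]; exact hΦ
    have h2 := mul_le_mul_of_nonneg_left h1 hG.le
    refine h2.trans (le_of_eq ?_)
    field_simp
  have hAk : ((A * (2 * k) : ℕ) : ℝ) + 1 ≤ 2 * A * (k + 1) := by
    push_cast
    rw [hAr]
    linarith
  have hl2k : 2 + Real.log ((2 * k : ℕ) : ℝ) ≤ 3 * (1 + Real.log (k + 1)) := by
    have hk' : (0 : ℝ) < k := by exact_mod_cast hk1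
    push_cast
    rw [Real.log_mul (by norm_num) hk'.ne']
    have h1 : Real.log (k : ℝ) ≤ Real.log (k + 1) := Real.log_le_log hk' (by linarith)
    have h2 := Real.log_two_lt_d9
    linarith
  have hl2k0 : 0 ≤ 2 + Real.log ((2 * k : ℕ) : ℝ) := by
    have : 0 ≤ Real.log ((2 * k : ℕ) : ℝ) := Real.log_natCast_nonneg _
    linarith
  have t6 : 600 * (D * ((CG * ((2 * k : ℕ) + 1) * (1 + Real.log (2 * k : ℕ)) +
      (2 * k : ℕ) * (3 * (A + 1))) / Y)) ≤ 600 * D * (6 * CG + 6 * (A + 1)) * (Φ / Y) := by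
    have h1 : ((2 * k : ℕ) : ℝ) ≤ 2 * Φ := by
      push_cast
      linarith
    have h2 : CG * (((2 * k : ℕ) : ℝ) + 1) * (1 + Real.log ((2 * k : ℕ) : ℝ)) ≤
        CG * (2 * ((k : ℝ) + 1)) * (3 * (1 + Real.log (k + 1))) := by
      have h3 : ((2 * k : ℕ) : ℝ) + 1 ≤ 2 * ((k : ℝ) + 1) := by
        push_cast
        linarith
      have h4 : 0 ≤ 1 + Real.log ((2 * k : ℕ) : ℝ) := by
        have : 0 ≤ Real.log ((2 * k : ℕ) : ℝ) := Real.log_natCast_nonneg _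
        linarith
      have h5 : 1 + Real.log ((2 * k : ℕ) : ℝ) ≤ 3 * (1 + Real.log (k + 1)) := by linarith
      gcongr
    have h6 : CG * (2 * ((k : ℝ) + 1)) * (3 * (1 + Real.log (k + 1))) = 6 * CG * Φ := by
      rw [hΦd]
      ring
    have h7 : ((2 * k : ℕ) : ℝ) * (3 * ((A : ℝ) + 1)) ≤ 2 * Φ * (3 * (A + 1)) := by gcongr
    have h8 : CG * (((2 * k : ℕ) : ℝ) + 1) * (1 + Real.log ((2 * k : ℕ) : ℝ)) +
        ((2 * k : ℕ) : ℝ) * (3 * ((A : ℝ) + 1)) ≤ (6 * CG + 6 * (A + 1)) * Φ := by linarith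
    have h9 : 600 * (D * ((CG * ((2 * k : ℕ) + 1) * (1 + Real.log (2 * k : ℕ)) +
      (2 * k : ℕ) * (3 * (A + 1))) / Y)) ≤ 600 * (D * ((6 * CG + 6 * (A + 1)) * Φ / Y)) := by
      gcongr
    refine h9.trans (le_of_eq ?_)
    ring
  have t7 : 1800 * (CM * ((A * (2 * k) : ℕ) + 1) / Y) *
      (2 + Real.log (2 * k : ℕ)) ≤ 5400 * (2 * A * CM) * (Φ / Y) := by
    have h1 : 1800 * (CM * ((A * (2 * k) : ℕ) + 1) / Y) *
        (2 + Real.log (2 * k : ℕ)) ≤ 1800 * (CM * (2 * A * (k + 1)) / Y) *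
        (3 * (1 + Real.log (k + 1))) := by gcongr
    refine h1.trans (le_of_eq ?_)
    rw [hΦd]
    ring
  have t8 : CM * ((A * (2 * k) : ℕ) + 1) / Y ≤ (2 * A * CM) * (Φ / Y) := by
    have h1 : CM * ((A * (2 * k) : ℕ) + 1) / Y ≤ CM * (2 * A * Φ) / Y := by
      gcongr
      exact hAk.trans (by gcongr)
    refine h1.trans (le_of_eq ?_)
    ring
  have h5X : 600 * (D * (CG / k₀ + 4000 * (1 / 2) ^ (k₀ / 2000) +
        (CG * ((2 * k : ℕ) + 1) * (1 + Real.log (2 * k : ℕ)) + (2 * k : ℕ) * (3 * (A + 1))) /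
          Y)) =
      600 * (D * (CG / k₀)) + 600 * (D * (4000 * (1 / 2) ^ (k₀ / 2000))) +
        600 * (D * ((CG * ((2 * k : ℕ) + 1) * (1 + Real.log (2 * k : ℕ)) +
          (2 * k : ℕ) * (3 * (A + 1))) / Y)) := by ring
  have hGX : G * (Φ / Y) = 600 * D * (6 * CG + 6 * (A + 1)) * (Φ / Y) +
      5400 * (2 * A * CM) * (Φ / Y) + (2 * A * CM) * (Φ / Y) := by
    rw [hGd]
    ring
  linarith

/-- the inequality of Bessel with given constants -/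
def BsuC (B₁ : ℕ) (C₁ : ℝ) : Prop := ∀ (R J : ℕ) (A : ℝ), 0 ≤ A →
  ∃ s₀ : ℕ, ∀ (s X K k₁ : ℕ) (lam : ℕ → ℝ) (e : ℝ) (m : ℕ → ℕ), s₀ ≤ s → 3 ≤ X → 0 ≤ e →
    (∀ n, |lam n| ≤ 1) → EB.Base lam R (2 ^ s) e X → K ≤ 2 ^ (s / B₁) →
    B₁ * s ≤ m 0 → (∀ i, i + 1 < K → B₁ * m i ≤ m (i + 1)) → (∀ i < K, m i ≤ k₁) →
    ∑ i ∈ range K, EB.lg X (fun n => UB lam J A (m i) n) ≤
      (C₁ * e + (1 / 2) ^ (s / B₁)) * Real.log X + C₁ * K * (k₁ + 1)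

/-- the sums over sparse sequences are small -/
lemma chainU {B₁ : ℕ} {C₁ : ℝ} (hB₁ : 1 ≤ B₁) (hC₁ : 0 < C₁) (hbsu : BsuC B₁ C₁) (B : ℕ)
    (hBB : B₁ ≤ B) (hB2 : 2 ≤ B) (ε₁ : ℝ) (hε₁ : 0 < ε₁) (R J : ℕ) (Af : ℝ) (hAf : 0 ≤ Af) :
    ∃ s₀ X₀ : ℕ, 3 ≤ X₀ ∧
      ∀ (s X : ℕ) (lam : ℕ → ℝ), s₀ ≤ s → X₀ ≤ X → Lio lam →
        Real.log (Real.log X) ≤ 2 ^ (s / (4000 * B)) →
        EB.Base lam R (2 ^ s) (ε₁ / (4 * C₁)) X →
        ∀ k₀ k : ℕ, 4000 * B * s ≤ k₀ → k₀ ≤ k → (k : ℝ) ≤ 2 * Real.log X ^ (24 / 25 : ℝ) →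
        ∀ (K : ℕ) (c : ℕ → ℕ), Chn B k₀ (2 * k) K c →
          ∑ i ∈ range K, EB.lg X (fun n => UB lam J Af (c i) n) ≤ ε₁ * Real.log X := by
  obtain ⟨s₁, hs₁⟩ := hbsu R J Af hAf
  obtain ⟨x, hx1, hx2⟩ : ∃ x : ℕ, 1 ≤ x ∧ 4 / ε₁ ≤ x :=
    ⟨⌈4 / ε₁⌉₊ + 1, by omega, by
      have := Nat.le_ceil (4 / ε₁)
      push_cast
      linarith⟩
  obtain ⟨X₀, hX₀, hlim⟩ := pf_LIM' (ε₁ / (32 * C₁)) (by positivity)
  refine ⟨s₁ + B * x + 5 * B + 1, X₀, hX₀, ?_⟩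
  intro s X lam hs hX hlam hll hbase k₀ k hk₀ hk hkX K c hc
  have hX3 : 3 ≤ X := hX₀.trans hX
  have hY1 := log_ge hX3
  have hΦ := hlim X k hX hkX
  obtain ⟨Y, hYd⟩ : ∃ Y : ℝ, Y = Real.log X := ⟨_, rfl⟩
  rw [← hYd] at hΦ hY1 hll hkX ⊢
  have hY : 0 < Y := by linarith
  have hl1 := Lio_abs hlam
  have hBs : s ≤ B * s := Nat.le_mul_of_pos_left _ (by omega)
  have hk₀s : 4000 * s ≤ k₀ := by
    have h1 : 4000 * B * s = 4000 * (B * s) := by ring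
    rw [h1] at hk₀
    omega
  have hs1 : 1 ≤ s := by omega
  have hk1 : 1 ≤ k := by omega
  obtain ⟨Φ, hΦd⟩ : ∃ Φ : ℝ, Φ = ((k : ℝ) + 1) * (1 + Real.log (k + 1)) := ⟨_, rfl⟩
  rw [← hΦd] at hΦ
  have hk0r : (0 : ℝ) ≤ k := Nat.cast_nonneg _
  have hlog0 : 0 ≤ Real.log ((k : ℝ) + 1) := Real.log_nonneg (by linarith)
  rcases Nat.eq_zero_or_pos K with h0 | h0
  · subst h0
    rw [sum_range_zero]
    positivity
  · have hKCH : T_KCH := Pool.Agent.H62.ENL.pf_KCH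
    have hK := chn_le hKCH hB2 (by omega) hk1 hc
    have hK2 := K_le hKCH hB₁ hBB hB2 (by omega) hk1 hY1 (by omega) hkX hll hc
    have hb := hs₁ s X K (2 * k) lam (ε₁ / (4 * C₁)) c (by omega) hX3 (by positivity) hl1 hbase
      hK2 (by
        have h2 := (hc.1 0 h0).1
        have h3 : B₁ * s ≤ B * s := Nat.mul_le_mul_right _ hBB
        have h4 : 4000 * B * s = 4000 * (B * s) := by ring
        rw [h4] at hk₀
        omega) (fun i hi => by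
        have h2 := hc.2 i hi
        have h3 : B₁ * c i ≤ B * c i := Nat.mul_le_mul_right _ hBB
        omega) (fun i hi => (hc.1 i hi).2)
    rw [← hYd] at hb
    refine hb.trans ?_
    have h8 : (K : ℝ) * ((2 * k : ℕ) + 1) ≤ 8 * Φ := by
      rw [hΦd]
      push_cast
      have h3 : (K : ℝ) * (2 * k + 1) ≤ 4 * (1 + Real.log (k + 1)) * (2 * (k + 1)) :=
        mul_le_mul hK (by linarith) (by positivity) (by positivity)
      linarith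
    have t1 : C₁ * (ε₁ / (4 * C₁)) = ε₁ / 4 := by
      field_simp
    have t2 : ((1 : ℝ) / 2) ^ (s / B₁) ≤ ε₁ / 4 := by
      have hx0 : (0 : ℝ) < x := by exact_mod_cast hx1
      have h1 : ((1 : ℝ) / 2) ^ (s / B₁) ≤ 1 / x := by
        apply half_pow_le hx0
        have : x ≤ s / B₁ := by
          rw [Nat.le_div_iff_mul_le (by omega)]
          have : x * B₁ ≤ B * x := by
            rw [mul_comm]; exact Nat.mul_le_mul_right _ hBB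
          omega
        exact_mod_cast this
      refine h1.trans ?_
      rw [div_le_iff₀ hx0]
      rw [div_le_iff₀ hε₁] at hx2
      linarith
    have t3 : C₁ * (8 * Φ) ≤ ε₁ / 4 * Y := by
      have h1 := mul_le_mul_of_nonneg_left hΦ (by positivity : 0 ≤ 8 * C₁)
      have h2 : 8 * C₁ * (ε₁ / (32 * C₁) * Y) = ε₁ / 4 * Y := by
        field_simp
        ring
      linarith
    have t4 : C₁ * K * (((2 * k : ℕ) : ℝ) + 1) ≤ C₁ * (8 * Φ) := by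
      have h1 := mul_le_mul_of_nonneg_left h8 hC₁.le
      linarith
    have t5 := mul_le_mul_of_nonneg_right t2 hY.le
    have t7 : 0 ≤ ε₁ * Y := by positivity
    rw [t1, add_mul]
    linarith

/-- EU -/
theorem pf_EU (hL : T_LVU) (hB : T_BSU) (hG : T_GMD) (hU : T_UBB) : T_EU := by
  obtain ⟨C₀, hC₀, hL⟩ := hL
  obtain ⟨B₁, C₁, hB₁, hC₁, hbsu⟩ := hB
  obtain ⟨B, hBB, hB2⟩ : ∃ B : ℕ, B₁ ≤ B ∧ 2 ≤ B := ⟨max B₁ 2, le_max_left _ _, le_max_right _ _⟩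
  have hBr : (0 : ℝ) < B := by
    have : 0 < B := by omega
    exact_mod_cast this
  have hε₁ : 0 < e1 C₀ B := by
    unfold e1
    positivity
  refine ⟨4000 * B, e1 C₀ B / (4 * C₁), by omega, by positivity, ?_⟩
  intro th hth hth1 R
  obtain ⟨Af, CL, p₀, J, m₁, hAf, hCL, hpm, hlev⟩ := hL th hth hth1
  obtain ⟨CM, hCM, hmn⟩ := Pool.Agent.H84.GS.pf_MNG th hth hth1
  obtain ⟨CG₁, hCG₁, hg1⟩ := Pool.Agent.H84.GS.pf_GMQ th p₀ hth hth1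
  obtain ⟨CG₂, hCG₂, hg2⟩ := hG th p₀ 1000 hth hth1 (by norm_num)
  obtain ⟨mU, CU, hCU, hUB⟩ := hU J Af hAf.le
  obtain ⟨k₁, X₁, hX₁, hnear⟩ := nearU hth hC₀ hCL hCM (add_pos hCG₁ hCG₂) hlev hmn
    (gmU hg1 hg2) B hB2 mU (fun lam m n hl hm => (hUB lam m n hm hl).1)
  obtain ⟨s₀, X₀, hX₀, hch⟩ := chainU hB₁ hC₁ hbsu B hBB hB2 (e1 C₀ B) hε₁ R J Af hAf.le
  refine ⟨s₀ + k₁, max X₀ X₁, ?_⟩
  intro s X lam hs hX hlam hll hb k₀ k hk₀ hk hkX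
  have h1 : k₁ ≤ k₀ := by
    have h2 : s ≤ 4000 * B * s := Nat.le_mul_of_pos_left _ (by positivity)
    omega
  exact hnear X k₀ k lam ((le_max_right _ _).trans hX) hlam h1 hk hkX
    (hch s X lam (by omega) ((le_max_left _ _).trans hX) hlam hll hb k₀ k hk₀ hk hkX)

end Pool.Agent.H81.G9
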